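import Mathlib

set_option autoImplicit false

/-!
# Piecewise linear homeomorphisms of `ℝⁿ`: definitions and statements of the pieces
-/

namespace Pool.Agent.K1H5.PLN

open Matrix Topology Filter

/-- vectors -/
abbrev V (n : ℕ) : Type := Fin n → ℝ

/-- the affine functional `x ↦ l.1 ⬝ x + l.2` -/
def ev {n : ℕ} (l : V n × ℝ) (x : V n) : ℝ := l.1 ⬝ᵥ x + l.2

/-- the matrix has entries in `A` and an inverse matrix with entries in `A` -/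
def InGL {n : ℕ} (A : Subring ℝ) (M : Matrix (Fin n) (Fin n) ℝ) : Prop :=
  ∃ M' : Matrix (Fin n) (Fin n) ℝ, (∀ i j, M i j ∈ A) ∧ (∀ i j, M' i j ∈ A) ∧
    M * M' = 1 ∧ M' * M = 1

/-- data of a piecewise linear map: off the finitely many hyperplanes `l = 0`, `l ∈ Λ`, the map
coincides on each cell with one of the finitely many affine maps `y ↦ g.1 y + g.2`, `g ∈ G` -/
def Data {n : ℕ} (A : Subring ℝ) (f : V n ≃ₜ V n) (Λ : Finset (V n × ℝ))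
    (G : Finset (Matrix (Fin n) (Fin n) ℝ × V n)) : Prop :=
  (∀ l ∈ Λ, l.1 ≠ 0) ∧ (∀ g ∈ G, InGL A g.1) ∧
    ∀ x, (∀ l ∈ Λ, ev l x ≠ 0) →
      ∃ g ∈ G, ∀ y, (∀ l ∈ Λ, 0 < ev l x * ev l y) → f y = g.1 *ᵥ y + g.2

/-- `f` is piecewise linear (finitely many polyhedral pieces) with linear parts in `GL_n(A)` -/
def IsPL {n : ℕ} (A : Subring ℝ) (f : V n ≃ₜ V n) : Prop :=
  ∃ (Λ : Finset (V n × ℝ)) (G : Finset (Matrix (Fin n) (Fin n) ℝ × V n)), Data A f Λ G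

/-- `f` is affine near `x`, with linear part in `GL_n(A)` -/
def LocAff {n : ℕ} (A : Subring ℝ) (f : V n ≃ₜ V n) (x : V n) : Prop :=
  ∃ (M : Matrix (Fin n) (Fin n) ℝ) (b : V n), InGL A M ∧ ∀ᶠ y in 𝓝 x, f y = M *ᵥ y + b

/-- `x` is a simple point of the arrangement `Λ`: all hyperplanes through `x` are equal -/
def Simple {n : ℕ} (Λ : Set (V n × ℝ)) (x : V n) : Prop :=
  ∀ l ∈ Λ, ∀ l' ∈ Λ, ev l x = 0 → ev l' x = 0 → ∃ c : ℝ, c ≠ 0 ∧ l'.1 = c • l.1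

/-- the interior of the fixed point set -/
def fixInt {n : ℕ} (h : V n ≃ₜ V n) : Set (V n) := interior {x | h x = x}

/-- near `x`, the map `h` is the identity on the side `a ⬝ (y - x) ≤ 0` and
`y ↦ y + (a ⬝ (y - x)) v` on the other side -/
def Loc {n : ℕ} (h : V n ≃ₜ V n) (x a v : V n) : Prop :=
  a ≠ 0 ∧ v ≠ 0 ∧ 0 < 1 + a ⬝ᵥ v ∧ ∀ᶠ y in 𝓝 x,
    (a ⬝ᵥ (y - x) ≤ 0 → h y = y) ∧ (0 ≤ a ⬝ᵥ (y - x) → h y = y + (a ⬝ᵥ (y - x)) • v)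

/-- linear algebra -/
def S_ALG : Prop := ∀ (n : ℕ) (A : Subring ℝ) (S : Matrix (Fin n) (Fin n) ℝ) (v a : V n) (M : ℕ),
  InGL A S → v ≠ 0 → a ≠ 0 → 0 < M →
  (∀ w : V n, (a ⬝ᵥ w) • (S *ᵥ v) = ((M : ℝ) * (a ⬝ᵥ (S *ᵥ w))) • v) → (M : ℝ)⁻¹ ∈ A

/-- only finitely many primes are invertible in a finitely generated ring -/
def S_PRM : Prop := ∀ T : Finset ℝ, ∃ P : ℕ, ∀ p : ℕ, p.Prime → P < p →
  (p : ℝ)⁻¹ ∉ Subring.closure (T : Set ℝ)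

/-- a piecewise linear map is locally affine at the points of a dense set -/
def S_DEN1 : Prop := ∀ (n : ℕ) (A : Subring ℝ) (f : V n ≃ₜ V n), IsPL A f →
  Dense {x | LocAff A f x}

/-- the maps which are locally affine on a dense set form a group -/
def S_DEN2 : Prop := ∀ (n : ℕ) (A : Subring ℝ) (s : Set (V n ≃ₜ V n)),
  (∀ f ∈ s, Dense {x | LocAff A f x}) → ∀ f ∈ Subgroup.closure s, Dense {x | LocAff A f x}

/-- choice of a point of the frontier of `U` whose backward orbit consists of simple points -/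
def S_PT : Prop := ∀ (n : ℕ) (t : V n ≃ₜ V n), IsPL ⊤ t → ∀ (Λ : Set (V n × ℝ)), Λ.Finite →
  (∀ l ∈ Λ, l.1 ≠ 0) → ∀ U : Set (V n), IsOpen U → U.Nonempty → ∀ b, b ∉ closure U →
  ∃ z ∈ frontier U, ∀ i : ℕ, Simple Λ ((t⁻¹ ^ i) z)

/-- local structure of two maps at a simple point of the frontier of the interior of the fixed
point set -/
def S_LOC : Prop := ∀ (n : ℕ) (h t : V n ≃ₜ V n) (Λ Λ' : Finset (V n × ℝ))
  (G G' : Finset (Matrix (Fin n) (Fin n) ℝ × V n)), Data ⊤ h Λ G → Data ⊤ t Λ' G' →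
  ∀ x ∈ frontier (fixInt h), Simple (↑Λ ∪ ↑Λ') x →
  ∃ (a v : V n) (S : Matrix (Fin n) (Fin n) ℝ) (c : V n), Loc h x a v ∧
    (∃ g ∈ G, g.1 = 1 + vecMulVec v a) ∧ ∀ᶠ y in 𝓝 x, 0 ≤ a ⬝ᵥ (y - x) → t y = S *ᵥ y + c

/-- the backward image of a point with local structure is in the frontier -/
def S_FRT : Prop := ∀ (n : ℕ) (h t : V n ≃ₜ V n) (m : ℕ), 2 ≤ m → t * h * t⁻¹ = h ^ m →
  ∀ x a v : V n, Loc h (t x) a v → x ∈ frontier (fixInt h)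

/-- the relation between the local structures at `x` and `t x` -/
def S_STEP : Prop := ∀ (n : ℕ) (h t : V n ≃ₜ V n) (m : ℕ), 2 ≤ m → t * h * t⁻¹ = h ^ m →
  ∀ (x a v a' v' : V n) (S : Matrix (Fin n) (Fin n) ℝ) (c : V n), Loc h x a v →
  Loc h (t x) a' v' → (∀ᶠ y in 𝓝 x, 0 ≤ a ⬝ᵥ (y - x) → t y = S *ᵥ y + c) →
  ∀ w : V n, (a ⬝ᵥ w) • (S *ᵥ v) =
    ((∑ k ∈ Finset.range m, (1 + a' ⬝ᵥ v') ^ k) * (a' ⬝ᵥ (S *ᵥ w))) • v'

/-- the linear part of `t` on the moving side is in `GL_n(A)` if `t` is densely locally affine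
over `A` -/
def S_INV : Prop := ∀ (n : ℕ) (A : Subring ℝ) (t : V n ≃ₜ V n), Dense {x | LocAff A t x} →
  ∀ (x a : V n) (S : Matrix (Fin n) (Fin n) ℝ) (c : V n), a ≠ 0 →
  (∀ᶠ y in 𝓝 x, 0 ≤ a ⬝ᵥ (y - x) → t y = S *ᵥ y + c) → InGL A S

/-- the key result -/
def S_KEY : Prop := ∀ (n : ℕ) (A : Subring ℝ) (h t : V n ≃ₜ V n) (m : ℕ), 2 ≤ m →
  t * h * t⁻¹ = h ^ m → IsPL ⊤ h → IsPL ⊤ t → Dense {x | LocAff A t x} → h ≠ 1 →
  (fixInt h).Nonempty → (m : ℝ)⁻¹ ∈ A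

end Pool.Agent.K1H5.PLN
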