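import Mathlib
import Pool.Agent.K1H5.PLN.Stm

set_option autoImplicit false

namespace Pool.Agent.K1H5.PLN

open Matrix Topology Filter

lemma InGL.one {n : ℕ} (A : Subring ℝ) : InGL A (1 : Matrix (Fin n) (Fin n) ℝ) := by
  refine ⟨1, ?_, ?_, by simp, by simp⟩ <;>
  · intro i j
    by_cases h : i = j
    · subst h; rw [Matrix.one_apply_eq]; exact A.one_mem
    · rw [Matrix.one_apply_ne h]; exact A.zero_mem

lemma InGL.mul {n : ℕ} {A : Subring ℝ} {M N : Matrix (Fin n) (Fin n) ℝ} (hM : InGL A M)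
    (hN : InGL A N) : InGL A (M * N) := by
  obtain ⟨M', h1, h2, h3, h4⟩ := hM
  obtain ⟨N', g1, g2, g3, g4⟩ := hN
  refine ⟨N' * M', ?_, ?_, ?_, ?_⟩
  · intro i j
    rw [Matrix.mul_apply]
    exact A.sum_mem fun k _ => A.mul_mem (h1 i k) (g1 k j)
  · intro i j
    rw [Matrix.mul_apply]
    exact A.sum_mem fun k _ => A.mul_mem (g2 i k) (h2 k j)
  · rw [Matrix.mul_assoc, ← Matrix.mul_assoc N N' M', g3, Matrix.one_mul, h3]
  · rw [Matrix.mul_assoc, ← Matrix.mul_assoc M' M N, h4, Matrix.one_mul, g4]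

/-- the product of the matrices `S (i+1) * ... * S (i+k)` -/
noncomputable def pr {n : ℕ} (S : ℕ → Matrix (Fin n) (Fin n) ℝ) (i : ℕ) : ℕ →
    Matrix (Fin n) (Fin n) ℝ
  | 0 => 1
  | k + 1 => pr S i k * S (i + k + 1)

lemma pr_inGL {n : ℕ} {A : Subring ℝ} {S : ℕ → Matrix (Fin n) (Fin n) ℝ}
    (hS : ∀ i, InGL A (S (i + 1))) (i k : ℕ) : InGL A (pr S i k) := by
  induction k with
  | zero => exact InGL.one A
  | succ k ih => exact ih.mul (hS _)

/-- key result from the pieces -/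
theorem t_KEY (h1 : S_ALG) (h2 : S_PT) (h3 : S_LOC) (h4 : S_FRT) (h5 : S_STEP) (h6 : S_INV) :
    S_KEY := by
  intro n A h t m hm hc hh ht htA hne hU
  obtain ⟨Λ, G, hG⟩ := hh
  obtain ⟨Λ', G', hG'⟩ := ht
  -- a point outside the closure
  obtain ⟨b, hb⟩ : ∃ b, h b ≠ b := by
    by_contra hcon
    push Not at hcon
    exact hne (Homeomorph.ext hcon)
  have hcl : closure (fixInt h) ⊆ {x | h x = x} :=
    closure_minimal interior_subset (isClosed_eq h.continuous continuous_id)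
  obtain ⟨z, hz, hsim⟩ := h2 n t ⟨Λ', G', hG'⟩ (↑Λ ∪ ↑Λ')
    (Λ.finite_toSet.union Λ'.finite_toSet)
    (by
      rintro l (hl | hl)
      · exact hG.1 l hl
      · exact hG'.1 l hl) (fixInt h) isOpen_interior hU b (fun hbc => hb (hcl hbc))
  -- all points of the backward orbit are frontier points
  have htx : ∀ i : ℕ, t ((t⁻¹ ^ (i + 1)) z) = (t⁻¹ ^ i) z := by
    intro i
    rw [pow_succ', Homeomorph.mul_apply, Homeomorph.inv_apply, t.apply_symm_apply]
  have hfr : ∀ i : ℕ, (t⁻¹ ^ i) z ∈ frontier (fixInt h) := by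
    intro i
    induction i with
    | zero => simpa using hz
    | succ i ih =>
      obtain ⟨a, v, S, c, hL, -, -⟩ := h3 n h t Λ Λ' G G' hG hG' _ ih (hsim i)
      apply h4 n h t m hm hc _ a v
      rw [htx]
      exact hL
  choose a v S c hL hD hS using fun i => h3 n h t Λ Λ' G G' hG hG' _ (hfr i) (hsim i)
  -- the relation
  have hrel : ∀ (i : ℕ) (w : V n), (a (i + 1) ⬝ᵥ w) • (S (i + 1) *ᵥ v (i + 1)) =
      ((∑ k ∈ Finset.range m, (1 + a i ⬝ᵥ v i) ^ k) * (a i ⬝ᵥ (S (i + 1) *ᵥ w))) • v i := by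
    intro i
    refine h5 n h t m hm hc _ _ _ (a i) (v i) (S (i + 1)) (c (i + 1)) (hL (i + 1)) ?_ (hS (i + 1))
    rw [htx]
    exact hL i
  have hInv : ∀ i, InGL A (S (i + 1)) := fun i => h6 n A t htA _ (a (i + 1)) _ (c (i + 1))
    (hL (i + 1)).1 (hS (i + 1))
  -- matrix form
  have hmat : ∀ i : ℕ, S (i + 1) * vecMulVec (v (i + 1)) (a (i + 1)) =
      (∑ k ∈ Finset.range m, (1 + a i ⬝ᵥ v i) ^ k) • (vecMulVec (v i) (a i) * S (i + 1)) := by
    intro i
    apply Matrix.ext_of_mulVec_single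
    intro j
    have := hrel i (Pi.single j 1)
    rw [← Matrix.mulVec_mulVec, Matrix.smul_mulVec, ← Matrix.mulVec_mulVec, vecMulVec_mulVec,
      vecMulVec_mulVec]
    simp only [op_smul_eq_smul]
    rw [Matrix.mulVec_smul, this, smul_smul]
  have htr : ∀ i, Matrix.trace (vecMulVec (v i) (a i)) = a i ⬝ᵥ v i := by
    intro i
    rw [Matrix.trace_vecMulVec, dotProduct_comm]
  have htrace : ∀ i, a (i + 1) ⬝ᵥ v (i + 1) =
      (∑ k ∈ Finset.range m, (1 + a i ⬝ᵥ v i) ^ k) * (a i ⬝ᵥ v i) := by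
    intro i
    obtain ⟨S', -, -, e1, e2⟩ := hInv i
    have h7 : vecMulVec (v (i + 1)) (a (i + 1)) = S' * (S (i + 1) * vecMulVec (v (i + 1)) (a (i + 1))) := by
      rw [← Matrix.mul_assoc, e2, Matrix.one_mul]
    rw [← htr, h7, hmat i, Matrix.mul_smul, Matrix.trace_smul, Matrix.trace_mul_comm,
      Matrix.mul_assoc, e1, Matrix.mul_one, htr, smul_eq_mul]
  have hal : ∀ i, 1 + a (i + 1) ⬝ᵥ v (i + 1) = (1 + a i ⬝ᵥ v i) ^ m := by
    intro i
    rw [htrace i]
    have := geom_sum_mul (1 + a i ⬝ᵥ v i) m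
    rw [add_sub_cancel_left] at this
    rw [this]
    ring
  have halk : ∀ i k, 1 + a (i + k) ⬝ᵥ v (i + k) = (1 + a i ⬝ᵥ v i) ^ m ^ k := by
    intro i k
    induction k with
    | zero => simp
    | succ k ih => rw [← add_assoc, hal, ih, ← pow_mul, pow_succ]
  -- pigeonhole
  obtain ⟨i, j, hij, heq⟩ : ∃ i j : ℕ, i < j ∧ 1 + vecMulVec (v i) (a i) = 1 + vecMulVec (v j) (a j) := by
    have hfin : Finite {M : Matrix (Fin n) (Fin n) ℝ // ∃ g ∈ G, g.1 = M} := by
      have : {M : Matrix (Fin n) (Fin n) ℝ | ∃ g ∈ G, g.1 = M} = Prod.fst '' (↑G : Set (Matrix (Fin n) (Fin n) ℝ × V n)) := by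
        ext M
        simp
      have h8 : {M : Matrix (Fin n) (Fin n) ℝ | ∃ g ∈ G, g.1 = M}.Finite := by
        rw [this]
        exact G.finite_toSet.image _
      exact h8
    obtain ⟨i, j, hne, he⟩ := Finite.exists_ne_map_eq_of_infinite
      (fun i : ℕ => (⟨1 + vecMulVec (v i) (a i), hD i⟩ : {M : Matrix (Fin n) (Fin n) ℝ // ∃ g ∈ G, g.1 = M}))
    have he' := congrArg Subtype.val he
    rcases lt_or_gt_of_ne hne with hlt | hlt
    · exact ⟨i, j, hlt, he'⟩
    · exact ⟨j, i, hlt, he'.symm⟩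
  have hN : vecMulVec (v i) (a i) = vecMulVec (v j) (a j) := add_left_cancel heq
  obtain ⟨k, rfl⟩ : ∃ k, j = i + k := ⟨j - i, by omega⟩
  have hk : k ≠ 0 := by omega
  have hpos : 0 < 1 + a i ⬝ᵥ v i := (hL i).2.2.1
  have hone : 1 + a i ⬝ᵥ v i = 1 := by
    have h9 : 1 + a i ⬝ᵥ v i = (1 + a i ⬝ᵥ v i) ^ m ^ k := by
      rw [← halk i k, ← htr i, hN, htr]
    have hmk : 2 ≤ m ^ k := hm.trans (Nat.le_self_pow hk m)
    by_contra hcon
    rcases lt_or_gt_of_ne hcon with hlt | hlt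
    · have := pow_lt_self_of_lt_one₀ hpos hlt (by omega : 1 < m ^ k)
      linarith
    · have := lt_self_pow₀ hlt (by omega : 1 < m ^ k)
      linarith
  have hall : ∀ l, 1 + a (i + l) ⬝ᵥ v (i + l) = 1 := fun l => by rw [halk, hone, one_pow]
  have hprod : ∀ l, pr S i l * vecMulVec (v (i + l)) (a (i + l)) =
      ((m : ℝ) ^ l) • (vecMulVec (v i) (a i) * pr S i l) := by
    intro l
    induction l with
    | zero => simp [pr]
    | succ l ih =>
      have h10 := hmat (i + l)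
      rw [hall l] at h10
      simp only [one_pow, Finset.sum_const, Finset.card_range, nsmul_eq_mul, mul_one] at h10
      change pr S i l * S (i + l + 1) * vecMulVec (v (i + l + 1)) (a (i + l + 1)) = 
        ((m : ℝ) ^ (l + 1)) • (vecMulVec (v i) (a i) * (pr S i l * S (i + l + 1)))
      rw [Matrix.mul_assoc, h10, Matrix.mul_smul, ← Matrix.mul_assoc, ih, Matrix.smul_mul,
        smul_smul, Matrix.mul_assoc, pow_succ']
  have hM := h1 n A (pr S i k) (v i) (a i) (m ^ k) (pr_inGL hInv i k) (hL i).2.1 (hL i).1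
    (by positivity) (by
      intro w
      have h11 := congrArg (fun X => X *ᵥ w) (hprod k)
      simp only [← hN] at h11
      rw [← Matrix.mulVec_mulVec, Matrix.smul_mulVec, ← Matrix.mulVec_mulVec, vecMulVec_mulVec,
        vecMulVec_mulVec] at h11
      simp only [op_smul_eq_smul] at h11
      rw [Matrix.mulVec_smul, smul_smul] at h11
      rw [h11]
      push_cast
      rfl)
  have hm0 : (m : ℝ) ≠ 0 := by
    have : m ≠ 0 := by omega
    exact_mod_cast this
  have h12 : (m : ℝ)⁻¹ = (m : ℝ) ^ (k - 1) * (((m ^ k : ℕ) : ℝ))⁻¹ := by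
    obtain ⟨k', rfl⟩ : ∃ k', k = k' + 1 := ⟨k - 1, by omega⟩
    rw [Nat.add_sub_cancel]
    push_cast
    rw [pow_succ, mul_inv]
    field_simp
  rw [h12]
  exact A.mul_mem (A.pow_mem (natCast_mem A m) _) hM

end Pool.Agent.K1H5.PLN
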