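import Mathlib
import Pool.Agent.K1H5.PLN.Stm

set_option autoImplicit false

namespace Pool.Agent.K1H5.PLN

open Matrix Topology Filter

/-- the homeomorphism moves all points by a bounded amount -/
def Bdd {n : ℕ} (h : V n ≃ₜ V n) : Prop := ∃ C : ℝ, ∀ (x : V n) (i : Fin n), |h x i - x i| ≤ C

/-- maps with bounded displacement -/
def S_BDD : Prop := ∀ (n : ℕ) (A : Subring ℝ) (h t : V n ≃ₜ V n) (m : ℕ), 2 ≤ m →
  t * h * t⁻¹ = h ^ m → IsPL ⊤ h → IsPL ⊤ t → Dense {x | LocAff A t x} → Bdd h →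
  (fixInt h).Nonempty ∨ (m : ℝ)⁻¹ ∈ A

/-- linear algebra: an invertible matrix over `A` with the eigenvalue `M` -/
def S_EIG : Prop := ∀ (n : ℕ) (A : Subring ℝ) (S : Matrix (Fin n) (Fin n) ℝ) (b : V n) (M : ℕ),
  InGL A S → b ≠ 0 → 0 < M → S *ᵥ b = (M : ℝ) • b → (M : ℝ)⁻¹ ∈ A

/-- deep points: outside finitely many slabs, for all points of a backward orbit of length `K` -/
def S_DEEP : Prop := ∀ (n : ℕ) (t : V n ≃ₜ V n), IsPL ⊤ t → ∀ Λ : Set (V n × ℝ), Λ.Finite →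
  (∀ l ∈ Λ, l.1 ≠ 0) → ∀ (r : ℝ) (K : ℕ), ∃ x : V n, ∀ i ≤ K, ∀ l ∈ Λ, r < |ev l ((t⁻¹ ^ i) x)|

/-- far from the hyperplanes a piecewise linear map with bounded displacement is a translation by
one of finitely many vectors -/
def S_TRA : Prop := ∀ (n : ℕ) (h : V n ≃ₜ V n) (Λ : Finset (V n × ℝ))
  (G : Finset (Matrix (Fin n) (Fin n) ℝ × V n)), Data ⊤ h Λ G → Bdd h →
  ∃ r₀ : ℝ, 0 < r₀ ∧ ∀ x : V n, (∀ l ∈ Λ, r₀ < |ev l x|) →
    ∃ g ∈ G, g.1 = 1 ∧ ∀ y, (∀ l ∈ Λ, 0 < ev l x * ev l y) → h y = y + g.2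

end Pool.Agent.K1H5.PLN
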