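import Mathlib
import Pool.Agent.K1H5.PLN.Key
import Pool.Agent.K1H5.PLN.Stm2

set_option autoImplicit false

namespace Pool.Agent.K1H5.PLN

open Matrix Topology Filter

lemma ev_add {n : ℕ} (l : V n × ℝ) (x w : V n) : ev l (x + w) = ev l x + l.1 ⬝ᵥ w := by
  unfold ev
  rw [dotProduct_add]
  ring

/-- a bound for the change of a functional -/
lemma dot_le {n : ℕ} (a w : V n) {C : ℝ} (hw : ∀ i, |w i| ≤ C) :
    |a ⬝ᵥ w| ≤ (∑ i, |a i|) * C := by
  unfold dotProduct
  calc |∑ i, a i * w i| ≤ ∑ i, |a i * w i| := Finset.abs_sum_le_sum_abs _ _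
    _ ≤ ∑ i, |a i| * C := by
        apply Finset.sum_le_sum
        intro i _
        rw [abs_mul]
        exact mul_le_mul_of_nonneg_left (hw i) (abs_nonneg _)
    _ = _ := by rw [Finset.sum_mul]

/-- a small change stays in the cell -/
lemma same_cell {r D x y : ℝ} (h1 : r < |x|) (h2 : |y - x| ≤ D) (h3 : D ≤ r) : 0 < x * y := by
  rcases le_total 0 x with hx | hx
  · rw [abs_of_nonneg hx] at h1
    have : 0 ≤ |y - x| := abs_nonneg _
    have h4 := (abs_le.1 h2).1
    have h5 : 0 < x := by linarith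
    have h6 : 0 < y := by linarith
    exact mul_pos h5 h6
  · rw [abs_of_nonpos hx] at h1
    have : 0 ≤ |y - x| := abs_nonneg _
    have h4 := (abs_le.1 h2).2
    have h5 : x < 0 := by linarith
    have h6 : y < 0 := by linarith
    exact mul_pos_of_neg_of_neg h5 h6

theorem t_BDD (h1 : S_EIG) (h2 : S_DEEP) (h3 : S_TRA) (h6 : S_INV) : S_BDD := by
  intro n A h t m hm hc hh ht htA hB
  classical
  obtain ⟨Λ, G, hG⟩ := hh
  obtain ⟨Λ', G', hG'⟩ := ht
  obtain ⟨r₀, hr₀, htr⟩ := h3 n h Λ G hG hB
  obtain ⟨C, hC⟩ := hB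
  -- a bound for displacements
  let C' : ℝ := |C| + 1
  have hC' : ∀ (x : V n) (i : Fin n), |h x i - x i| ≤ C' := fun x i =>
    (hC x i).trans ((le_abs_self C).trans (by simp [C']))
  have hC'0 : 0 ≤ C' := by positivity
  let L : ℝ := ∑ l ∈ Λ ∪ Λ', ∑ i, |l.1 i|
  have hL : ∀ l ∈ Λ ∪ Λ', ∑ i, |l.1 i| ≤ L := fun l hl =>
    Finset.single_le_sum (f := fun l : V n × ℝ => ∑ i, |l.1 i|)
      (fun l _ => Finset.sum_nonneg fun i _ => abs_nonneg _) hl
  have hL0 : 0 ≤ L := Finset.sum_nonneg fun l _ => Finset.sum_nonneg fun i _ => abs_nonneg _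
  let r : ℝ := r₀ + L * (m * C')
  have hmC : 0 ≤ (m : ℝ) * C' := by positivity
  have hr1 : r₀ ≤ r := by
    have : 0 ≤ L * (m * C') := mul_nonneg hL0 hmC
    simp only [r]; linarith
  have hr2 : L * (m * C') ≤ r := by simp only [r]; linarith
  obtain ⟨x₀, hx₀⟩ := h2 n t ⟨Λ', G', hG'⟩ (↑Λ ∪ ↑Λ') (Λ.finite_toSet.union Λ'.finite_toSet)
    (by
      rintro l (hl | hl)
      · exact hG.1 l hl
      · exact hG'.1 l hl) r (G.card + 1)
  let x : ℕ → V n := fun i => (t⁻¹ ^ i) x₀
  have hdeep : ∀ i ≤ G.card + 1, ∀ l ∈ Λ ∪ Λ', r < |ev l (x i)| := by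
    intro i hi l hl
    refine hx₀ i hi l ?_
    rcases Finset.mem_union.1 hl with h7 | h7
    · exact Or.inl h7
    · exact Or.inr h7
  have htx : ∀ i, t (x (i + 1)) = x i := by
    intro i
    change t ((t⁻¹ ^ (i + 1)) x₀) = (t⁻¹ ^ i) x₀
    rw [pow_succ', Homeomorph.mul_apply, Homeomorph.inv_apply, t.apply_symm_apply]
  -- cells
  have hcell : ∀ i ≤ G.card + 1, ∀ w : V n, (∀ j, |w j| ≤ m * C') → ∀ l ∈ Λ ∪ Λ',
      0 < ev l (x i) * ev l (x i + w) := by
    intro i hi w hw l hl
    refine same_cell (hdeep i hi l hl) (D := L * (m * C')) ?_ hr2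
    rw [ev_add, add_sub_cancel_left]
    exact (dot_le l.1 w hw).trans (mul_le_mul_of_nonneg_right (hL l hl) hmC)
  -- local form of `h`
  have hloc : ∀ i : ℕ, ∃ b : V n, i ≤ G.card + 1 → (∃ g ∈ G, g.2 = b) ∧ (∀ j, |b j| ≤ C') ∧
      ∀ y, (∀ l ∈ Λ, 0 < ev l (x i) * ev l y) → h y = y + b := by
    intro i
    by_cases hi : i ≤ G.card + 1
    · obtain ⟨g, hg, -, hgy⟩ := htr (x i) (fun l hl => lt_of_le_of_lt hr1
        (hdeep i hi l (Finset.mem_union_left _ hl)))
      refine ⟨g.2, fun _ => ⟨⟨g, hg, rfl⟩, fun j => ?_, hgy⟩⟩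
      have h8 : h (x i) = x i + g.2 := by
        apply hgy
        intro l hl
        have := hcell i hi 0 (fun j => by simpa using hmC) l (Finset.mem_union_left _ hl)
        rwa [add_zero] at this
      have h9 := hC' (x i) j
      rw [h8] at h9
      simpa using h9
    · exact ⟨0, fun h => absurd h hi⟩
  choose b hb using hloc
  have hm1 : (1 : ℝ) ≤ m := by exact_mod_cast (by omega : 1 ≤ m)
  have hkb : ∀ i ≤ G.card + 1, ∀ k ≤ m, ∀ j, |((k : ℝ) • b i) j| ≤ m * C' := by
    intro i hi k hk j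
    rw [Pi.smul_apply, smul_eq_mul, abs_mul, Nat.abs_cast]
    have hk' : (k : ℝ) ≤ m := by exact_mod_cast hk
    exact mul_le_mul hk' ((hb i hi).2.1 j) (abs_nonneg _) (by positivity)
  have hpow : ∀ i ≤ G.card + 1, ∀ k ≤ m, (h ^ k) (x i) = x i + (k : ℝ) • b i := by
    intro i hi k
    induction k with
    | zero => intro _; simp
    | succ k ih =>
      intro hk
      rw [pow_succ', Homeomorph.mul_apply, ih (by omega), (hb i hi).2.2]
      · push_cast
        rw [add_smul, one_smul, add_assoc]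
      · intro l hl
        exact hcell i hi _ (hkb i hi k (by omega)) l (Finset.mem_union_left _ hl)
  -- local form of `t`
  have hS : ∀ i : ℕ, ∃ S : Matrix (Fin n) (Fin n) ℝ, i ≤ G.card → InGL A S ∧
      S *ᵥ b (i + 1) = (m : ℝ) • b i := by
    intro i
    by_cases hi : i ≤ G.card
    swap
    · exact ⟨1, fun h => absurd h hi⟩
    have hi1 : i + 1 ≤ G.card + 1 := by omega
    obtain ⟨g, hg, hgy⟩ := hG'.2.2 (x (i + 1)) (by
      intro l hl h0
      have h7 := hdeep (i + 1) hi1 l (Finset.mem_union_right _ hl)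
      rw [h0, abs_zero] at h7
      linarith)
    refine ⟨g.1, fun _ => ⟨?_, ?_⟩⟩
    · -- the open cell contains a point where `t` is locally affine over `A`
      by_cases hn : ∃ a : V n, a ≠ 0
      swap
      · push Not at hn
        have hz : ∀ M : Matrix (Fin n) (Fin n) ℝ, M = 1 := by
          intro M
          apply Matrix.ext_of_mulVec_single
          intro j
          exact (hn _).trans (hn _).symm
        rw [hz g.1]
        exact InGL.one A
      obtain ⟨a, ha⟩ := hn
      refine h6 n A t htA (x (i + 1)) a g.1 g.2 ha ?_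
      have hop : ∀ᶠ y in 𝓝 (x (i + 1)), ∀ l ∈ Λ', 0 < ev l (x (i + 1)) * ev l y := by
        rw [Filter.eventually_all_finset]
        intro l hl
        have hcont : Continuous fun y : V n => ev l (x (i + 1)) * ev l y := by
          unfold ev dotProduct
          fun_prop
        have h0 : 0 < ev l (x (i + 1)) * ev l (x (i + 1)) := by
          have h7 := hdeep (i + 1) hi1 l (Finset.mem_union_right _ hl)
          have h8 : 0 < |ev l (x (i + 1))| := by linarith
          exact mul_self_pos.2 (abs_pos.1 h8)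
        exact hcont.continuousAt.eventually (lt_mem_nhds h0)
      filter_upwards [hop] with y hy _
      exact hgy y hy
    · have e1 : t (x (i + 1)) = g.1 *ᵥ x (i + 1) + g.2 := by
        apply hgy
        intro l hl
        have := hcell (i + 1) hi1 0 (fun j => by simpa using hmC) l (Finset.mem_union_right _ hl)
        rwa [add_zero] at this
      have e2 : t (x (i + 1) + b (i + 1)) = g.1 *ᵥ (x (i + 1) + b (i + 1)) + g.2 := by
        apply hgy
        intro l hl
        refine hcell (i + 1) hi1 _ (fun j => ?_) l (Finset.mem_union_right _ hl)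
        refine ((hb (i + 1) hi1).2.1 j).trans ?_
        nlinarith
      have e3 : h (x (i + 1)) = x (i + 1) + b (i + 1) := by
        have := hpow (i + 1) hi1 1 (by omega)
        simpa using this
      have e4 : t (h (x (i + 1))) = (h ^ m) (t (x (i + 1))) := by
        rw [← hc]
        simp
      rw [e3, e2, htx, hpow i (by omega) m le_rfl] at e4
      rw [← htx i, e1, mulVec_add] at e4
      have e5 : g.1 *ᵥ x (i + 1) + g.2 + g.1 *ᵥ b (i + 1) =
          g.1 *ᵥ x (i + 1) + g.2 + (m : ℝ) • b i := by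
        rw [← e4]
        abel
      exact add_left_cancel e5
  choose S hSi using hS
  have hm0 : (m : ℝ) ≠ 0 := by linarith
  by_cases hb0 : b 0 = 0
  · left
    refine ⟨x 0, mem_interior_iff_mem_nhds.2 ?_⟩
    have hop : ∀ᶠ y in 𝓝 (x 0), ∀ l ∈ Λ, 0 < ev l (x 0) * ev l y := by
      rw [Filter.eventually_all_finset]
      intro l hl
      have hcont : Continuous fun y : V n => ev l (x 0) * ev l y := by
        unfold ev dotProduct
        fun_prop
      have h0 : 0 < ev l (x 0) * ev l (x 0) := by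
        have h7 := hdeep 0 (by omega) l (Finset.mem_union_left _ hl)
        have h8 : 0 < |ev l (x 0)| := by linarith
        exact mul_self_pos.2 (abs_pos.1 h8)
      exact hcont.continuousAt.eventually (lt_mem_nhds h0)
    filter_upwards [hop] with y hy
    rw [(hb 0 (by omega)).2.2 y hy, hb0, add_zero]
  right
  have hbne : ∀ i ≤ G.card + 1, b i ≠ 0 := by
    intro i
    induction i with
    | zero => intro _; exact hb0
    | succ i ih =>
      intro hi h0
      have e := (hSi i (by omega)).2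
      rw [h0, mulVec_zero] at e
      exact (smul_ne_zero hm0 (ih (by omega))) e.symm
  -- pigeonhole
  obtain ⟨i, j, hij, hj, heq⟩ : ∃ i j : ℕ, i < j ∧ j ≤ G.card + 1 ∧ b i = b j := by
    have hcard : (G.image Prod.snd).card < (Finset.range (G.card + 2)).card := by
      rw [Finset.card_range]
      have := Finset.card_image_le (s := G) (f := Prod.snd)
      omega
    obtain ⟨i, hi, j, hj, hne, he⟩ := Finset.exists_ne_map_eq_of_card_lt_of_maps_to hcard
      (f := b) (by
        intro i hi
        obtain ⟨⟨g, hg, hgb⟩, -⟩ := hb i (by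
          have := Finset.mem_range.1 hi
          omega)
        exact Finset.mem_image.2 ⟨g, hg, hgb⟩)
    have hi' := Finset.mem_range.1 hi
    have hj' := Finset.mem_range.1 hj
    rcases lt_or_gt_of_ne hne with hlt | hlt
    · exact ⟨i, j, hlt, by omega, he⟩
    · exact ⟨j, i, hlt, by omega, he.symm⟩
  obtain ⟨k, rfl⟩ : ∃ k, j = i + k := ⟨j - i, by omega⟩
  let S' : ℕ → Matrix (Fin n) (Fin n) ℝ := fun l => if l ≤ G.card + 1 ∧ 1 ≤ l then S (l - 1) else 1
  have hS' : ∀ l, InGL A (S' (l + 1)) := by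
    intro l
    by_cases hl : l + 1 ≤ G.card + 1
    · simp only [S', hl, true_and, if_pos (show 1 ≤ l + 1 by omega)]
      exact (hSi l (by omega)).1
    · simp only [S', hl, false_and, if_false]
      exact InGL.one A
  have hprod : ∀ l, i + l ≤ G.card + 1 → pr S' i l *ᵥ b (i + l) = ((m : ℝ) ^ l) • b i := by
    intro l
    induction l with
    | zero => intro _; simp [pr]
    | succ l ih =>
      intro hl
      have e1 : S' (i + l + 1) = S (i + l) := by
        simp only [S']
        rw [if_pos ⟨by omega, by omega⟩, Nat.add_sub_cancel]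
      change (pr S' i l * S' (i + l + 1)) *ᵥ b (i + l + 1) = _
      rw [← mulVec_mulVec, e1, (hSi (i + l) (by omega)).2, mulVec_smul, ih (by omega), smul_smul,
        pow_succ']
  have hM := h1 n A (pr S' i k) (b i) (m ^ k) (pr_inGL hS' i k) (hbne i (by omega))
    (by positivity) (by
      have := hprod k hj
      rw [← heq] at this
      rw [this]
      push_cast
      rfl)
  have hk : k ≠ 0 := by omega
  have h12 : (m : ℝ)⁻¹ = (m : ℝ) ^ (k - 1) * (((m ^ k : ℕ) : ℝ))⁻¹ := by
    obtain ⟨k', rfl⟩ : ∃ k', k = k' + 1 := ⟨k - 1, by omega⟩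
    rw [Nat.add_sub_cancel]
    push_cast
    rw [pow_succ, mul_inv]
    field_simp
  rw [h12]
  exact A.mul_mem (A.pow_mem (natCast_mem A m) _) hM

end Pool.Agent.K1H5.PLN
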