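import Mathlib
import Pool.Agent.K1H5.PLN.Key
import Pool.Agent.H26R2.Bass.Main

set_option autoImplicit false

namespace Pool.Agent.K1H5.PLN

open Matrix Topology Filter Pool.Agent.H26R2.Bass Pool.Agent.H26R2.IdemLI

open Pool.Agent.H23R2.Cyc (ell ell_single ell_mul_comm ell_eq_sum tf tf_apply tf_eq_zero)

section

universe u v

lemma IsPL.mono {n : ℕ} {A A' : Subring ℝ} (h : A ≤ A') {f : V n ≃ₜ V n} (hf : IsPL A f) :
    IsPL A' f := by
  obtain ⟨Λ, G, h1, h2, h3⟩ := hf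
  refine ⟨Λ, G, h1, fun g hg => ?_, h3⟩
  obtain ⟨M', e1, e2, e3, e4⟩ := h2 g hg
  exact ⟨M', fun i j => h (e1 i j), fun i j => h (e2 i j), e3, e4⟩

lemma IsPL.fg {n : ℕ} {A : Subring ℝ} {f : V n ≃ₜ V n} (hf : IsPL A f) :
    ∃ T : Finset ℝ, IsPL (Subring.closure (T : Set ℝ)) f := by
  classical
  obtain ⟨Λ, G, h1, h2, h3⟩ := hf
  choose! M' e1 e2 e3 e4 using h2
  let T : Finset ℝ := G.biUnion fun g => (Finset.univ : Finset (Fin n × Fin n)).biUnion fun q =>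
    {g.1 q.1 q.2, M' g q.1 q.2}
  refine ⟨T, Λ, G, h1, fun g hg => ⟨M' g, fun i j => ?_, fun i j => ?_, e3 g hg, e4 g hg⟩, h3⟩
  · apply Subring.subset_closure
    rw [Finset.mem_coe, Finset.mem_biUnion]
    exact ⟨g, hg, Finset.mem_biUnion.2 ⟨(i, j), Finset.mem_univ _, by simp⟩⟩
  · apply Subring.subset_closure
    rw [Finset.mem_coe, Finset.mem_biUnion]
    exact ⟨g, hg, Finset.mem_biUnion.2 ⟨(i, j), Finset.mem_univ _, by simp⟩⟩

lemma inv_of_pow {A : Subring ℝ} {q J : ℕ} (hq : q ≠ 0) (hJ : 1 ≤ J)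
    (h : ((q ^ J : ℕ) : ℝ)⁻¹ ∈ A) : (q : ℝ)⁻¹ ∈ A := by
  have hq' : (q : ℝ) ≠ 0 := by exact_mod_cast hq
  obtain ⟨k, rfl⟩ : ∃ k, J = k + 1 := ⟨J - 1, by omega⟩
  have h12 : (q : ℝ)⁻¹ = (q : ℝ) ^ k * (((q ^ (k + 1) : ℕ) : ℝ))⁻¹ := by
    push_cast
    rw [pow_succ, mul_inv]
    field_simp
  rw [h12]
  exact A.mul_mem (A.pow_mem (natCast_mem A q) _) h

/-- the Hattori–Stallings rank vanishes at elements acting nontrivially and fixing an open set -/
theorem tau_zero (hK : S_KEY) (hP : S_PRM) (hD1 : S_DEN1) (hD2 : S_DEN2)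
    {R : Type u} [CommRing R] [IsDomain R] {n : ℕ} (A : Subring ℝ)
    (hR : CharZero R ∨ ∃ p : ℕ, p.Prime ∧ ¬ IsUnit (p : R) ∧ (p : ℝ)⁻¹ ∉ A)
    {G : Type v} [Group G] (ρ : G →* (V n ≃ₜ V n)) (hρ : ∀ x, IsPL A (ρ x)) {k : ℕ}
    (X : Matrix (Fin k) (Fin k) (MonoidAlgebra R G)) (hX : X * X = X) (g : G) (hg : ρ g ≠ 1)
    (hfix : (fixInt (ρ g)).Nonempty) : tau X g = 0 := by
  classical
  rw [tau_eq]
  by_contra hne
  obtain ⟨H, hH, B, hB, h, hconj, hne'⟩ := exists_local X hX g hne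
  obtain ⟨c, hc⟩ := isConj_iff.1 hconj
  have e0 : ρ c * ρ h * (ρ c)⁻¹ = ρ g := by
    rw [← hc, map_mul, map_mul, map_inv]
  have h1 : ρ (h : G) ≠ 1 := by
    intro h1
    apply hg
    rw [← e0, h1, mul_one, mul_inv_cancel]
  have h2 : (fixInt (ρ (h : G))).Nonempty := by
    obtain ⟨x, hx⟩ := hfix
    refine ⟨(ρ c).symm x, ?_⟩
    have hx' : ∀ᶠ y in 𝓝 x, ρ g y = y := mem_interior_iff_mem_nhds.1 hx
    refine mem_interior_iff_mem_nhds.2 ?_
    have hcont : Tendsto (ρ c) (𝓝 ((ρ c).symm x)) (𝓝 x) := by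
      have := (ρ c).continuous.tendsto ((ρ c).symm x)
      rwa [(ρ c).apply_symm_apply] at this
    filter_upwards [hcont.eventually hx'] with y hy
    rw [← e0, Homeomorph.mul_apply, Homeomorph.mul_apply, Homeomorph.inv_apply,
      (ρ c).symm_apply_apply] at hy
    exact (ρ c).injective hy
  have key : ∀ (A' : Subring ℝ), (∀ t : H, Dense {x | LocAff A' (ρ (t : G)) x}) → ∀ m : ℕ,
      2 ≤ m → IsConj h (h ^ m) → (m : ℝ)⁻¹ ∈ A' := by
    intro A' hd m hm hcm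
    obtain ⟨t, ht⟩ := isConj_iff.1 hcm
    refine hK n A' (ρ (h : G)) (ρ (t : G)) m hm ?_ ((hρ _).mono le_top) ((hρ _).mono le_top)
      (hd t) h1 h2
    have h3 := congrArg (fun y : H => ρ (y : G)) ht
    simpa using h3
  apply hne'
  apply tf_zero_of_good B hB h
  rcases hR with h0 | ⟨p, hp, hpR, hpA⟩
  · refine Or.inr (Or.inr ⟨h0, ?_⟩)
    rintro ⟨m, J, hm, hJ, hmJ⟩
    obtain ⟨s, hs⟩ := hH
    choose T hT using fun x : G => (hρ x).fg
    let T' : Finset ℝ := s.biUnion T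
    have hd : ∀ t : H, Dense {x | LocAff (Subring.closure (T' : Set ℝ)) (ρ (t : G)) x} := by
      intro t
      refine hD2 n _ (ρ '' (s : Set G)) ?_ _ ?_
      · rintro _ ⟨x, hx, rfl⟩
        apply hD1
        refine (hT x).mono (Subring.closure_mono ?_)
        exact_mod_cast Finset.subset_biUnion_of_mem T hx
      · rw [← MonoidHom.map_closure, hs]
        exact ⟨t, t.2, rfl⟩
    obtain ⟨P, hPP⟩ := hP T'
    obtain ⟨q, hqP, hq⟩ := Nat.exists_infinite_primes (P + m + 1)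
    have hcop : q.Coprime m := by
      rw [hq.coprime_iff_not_dvd]
      intro hdvd
      have := Nat.le_of_dvd (by omega) hdvd
      omega
    refine hPP q hq (by omega) (inv_of_pow hq.ne_zero hJ (key _ hd _ ?_ (hmJ q hcop)))
    exact hq.two_le.trans (Nat.le_self_pow (by omega) q)
  · refine Or.inr (Or.inl ⟨p, hp, hpR, fun j hj hcj => ?_⟩)
    refine hpA (inv_of_pow hp.ne_zero hj (key A (fun t => hD1 n A _ (hρ _)) _ ?_ hcj))
    exact hp.two_le.trans (Nat.le_self_pow (by omega) p)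

end

end Pool.Agent.K1H5.PLN
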