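import Mathlib
import Pool.Agent.K1H5.PLN.Main0
import Pool.Agent.K1H5.PLN.BddKey
import Pool.Agent.K1H8.PLN.Alg
import Pool.Agent.K1H7.PLN.Den
import Pool.Agent.K1H59.PLN.Pt
import Pool.Agent.K1H37.PLN.Loc
import Pool.Agent.K1H87.PLN.Step
import Pool.Agent.K1H59.PLN.Eig
import Pool.Agent.K1H7.PLN.Deep
import Pool.Agent.K1H33.PLN.Tra

set_option autoImplicit false

namespace Pool.Agent.K1H5.PLN

open Matrix Topology Filter Pool.Agent.H26R2.Bass Pool.Agent.H26R2.IdemLI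

open Pool.Agent.H23R2.Cyc (ell ell_single ell_mul_comm ell_eq_sum tf tf_apply tf_eq_zero)

universe u v

/-- the map fixes an open set or moves all points by a bounded amount -/
def Tame {n : ℕ} (h : V n ≃ₜ V n) : Prop := (fixInt h).Nonempty ∨ Bdd h

theorem key : S_KEY := t_KEY K1H8.PLN.t_ALG K1H59.PLN.t_PT K1H37.PLN.t_LOC K1H87.PLN.t_FRT
  K1H87.PLN.t_STEP K1H7.PLN.t_INV

theorem bddKey : S_BDD := t_BDD K1H59.PLN.t_EIG K1H7.PLN.t_DEEP K1H33.PLN.t_TRA K1H7.PLN.t_INV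

lemma tame_key {n : ℕ} {A : Subring ℝ} {h t : V n ≃ₜ V n} {m : ℕ}
    (hm : 2 ≤ m) (hc : t * h * t⁻¹ = h ^ m) (hh : IsPL ⊤ h) (ht : IsPL ⊤ t)
    (htA : Dense {x | LocAff A t x}) (hne : h ≠ 1) (hT : Tame h) : (m : ℝ)⁻¹ ∈ A := by
  rcases hT with hT | hT
  · exact key n A h t m hm hc hh ht htA hne hT
  · rcases bddKey n A h t m hm hc hh ht htA hT with h1 | h1
    · exact key n A h t m hm hc hh ht htA hne h1
    · exact h1

/-- the Hattori–Stallings rank vanishes at elements with a tame nontrivial power -/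
theorem tau_tame {R : Type u} [CommRing R] [IsDomain R] {n : ℕ} (A : Subring ℝ)
    (hR : CharZero R ∨ ∃ p : ℕ, p.Prime ∧ ¬ IsUnit (p : R) ∧ (p : ℝ)⁻¹ ∉ A)
    {G : Type v} [Group G] (ρ : G →* (V n ≃ₜ V n)) (hρ : ∀ x, IsPL A (ρ x)) {k : ℕ}
    (X : Matrix (Fin k) (Fin k) (MonoidAlgebra R G)) (hX : X * X = X) (g : G) (N : ℕ)
    (hg : ρ g ^ N ≠ 1) (hT : Tame (ρ g ^ N)) : tau X g = 0 := by
  classical
  rw [tau_eq]
  by_contra hne
  obtain ⟨H, hH, B, hB, h, hconj, hne'⟩ := exists_local X hX g hne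
  obtain ⟨c, hc⟩ := isConj_iff.1 hconj
  let ψ : G →* (V n ≃ₜ V n) := ρ.comp (MulAut.conj c).toMonoidHom
  have hψ : ∀ x, IsPL A (ψ x) := fun x => hρ _
  have hψh : ψ (h : G) = ρ g := by
    change ρ (c * h * c⁻¹) = ρ g
    rw [hc]
  have key : ∀ (A' : Subring ℝ), (∀ t : H, Dense {x | LocAff A' (ψ (t : G)) x}) → ∀ m : ℕ,
      2 ≤ m → IsConj h (h ^ m) → (m : ℝ)⁻¹ ∈ A' := by
    intro A' hd m hm hcm
    obtain ⟨t, ht⟩ := isConj_iff.1 hcm
    have h3 : ψ (t : G) * ψ (h : G) * (ψ (t : G))⁻¹ = ψ (h : G) ^ m := by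
      have h3 := congrArg (fun y : H => ψ (y : G)) ht
      simpa using h3
    have h4 : ψ (t : G) * (ρ g ^ N) * (ψ (t : G))⁻¹ = (ρ g ^ N) ^ m := by
      rw [← hψh, ← conj_pow, h3, ← pow_mul, ← pow_mul, mul_comm]
    have h5 : IsPL ⊤ (ρ g ^ N) := by
      rw [← map_pow]
      exact (hρ _).mono le_top
    exact tame_key hm h4 h5 ((hψ _).mono le_top) (hd t) hg hT
  apply hne'
  apply tf_zero_of_good B hB h
  rcases hR with h0 | ⟨p, hp, hpR, hpA⟩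
  · refine Or.inr (Or.inr ⟨h0, ?_⟩)
    rintro ⟨m, J, hm, hJ, hmJ⟩
    obtain ⟨s, hs⟩ := hH
    choose T hT' using fun x : G => (hψ x).fg
    let T' : Finset ℝ := s.biUnion T
    have hd : ∀ t : H, Dense {x | LocAff (Subring.closure (T' : Set ℝ)) (ψ (t : G)) x} := by
      intro t
      refine K1H7.PLN.t_DEN2 n _ (ψ '' (s : Set G)) ?_ _ ?_
      · rintro _ ⟨x, hx, rfl⟩
        apply K1H7.PLN.t_DEN1
        refine (hT' x).mono (Subring.closure_mono ?_)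
        exact_mod_cast Finset.subset_biUnion_of_mem T hx
      · rw [← MonoidHom.map_closure, hs]
        exact ⟨t, t.2, rfl⟩
    obtain ⟨P, hPP⟩ := K1H7.PLN.t_PRM T'
    obtain ⟨q, hqP, hq⟩ := Nat.exists_infinite_primes (P + m + 1)
    have hcop : q.Coprime m := by
      rw [hq.coprime_iff_not_dvd]
      intro hdvd
      have := Nat.le_of_dvd (by omega) hdvd
      omega
    refine hPP q hq (by omega) (inv_of_pow hq.ne_zero hJ (key _ hd _ ?_ (hmJ q hcop)))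
    exact hq.two_le.trans (Nat.le_self_pow (by omega) q)
  · refine Or.inr (Or.inl ⟨p, hp, hpR, fun j hj hcj => ?_⟩)
    refine hpA (inv_of_pow hp.ne_zero hj (key A (fun t => K1H7.PLN.t_DEN1 n A _ (hψ _)) _ ?_ hcj))
    exact hp.two_le.trans (Nat.le_self_pow (by omega) p)

/-- the conjecture for groups of tame maps -/
theorem bass_tame {R : Type u} [CommRing R] [IsDomain R] {n : ℕ} (A : Subring ℝ)
    (hR : CharZero R ∨ ∃ p : ℕ, p.Prime ∧ ¬ IsUnit (p : R) ∧ (p : ℝ)⁻¹ ∉ A)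
    {G : Type v} [Group G] (ρ : G →* (V n ≃ₜ V n)) (hρ : ∀ x, IsPL A (ρ x))
    (hG : ∀ x : G, ∃ N : ℕ, 0 < N ∧ (ρ x ^ N = 1 → x ^ N = 1) ∧ Tame (ρ x ^ N)) {k : ℕ}
    (X : Matrix (Fin k) (Fin k) (MonoidAlgebra R G)) (hX : X * X = X) (g : G)
    (hg : ¬ IsUnit ((orderOf g : ℕ) : R)) : tau X g = 0 := by
  by_cases hfin : orderOf g = 0
  · obtain ⟨N, hN, h1, h2⟩ := hG g
    refine tau_tame A hR ρ hρ X hX g N (fun h3 => ?_) h2
    have h4 := orderOf_pos_iff.2 (isOfFinOrder_iff_pow_eq_one.2 ⟨N, hN, h1 h3⟩)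
    omega
  · rw [tau_eq]
    exact tf_zero_of_finite X hX g hfin hg

end Pool.Agent.K1H5.PLN
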